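import Pool.Agent.helper60.DA.SpecV

set_option autoImplicit false

namespace Pool.Agent.helper60.DA

open Polynomial Finset Pool.Agent.helper60.DK

theorem K2_aux1 (p : ℕ) [Fact p.Prime] (n : ℕ) (hn : 2 * n < p) :
    (red p (Dz n)).natDegree ≤ n ∧ (red p (Dz n)).coeff n ≠ 0 := by
  constructor
  · exact (natDegree_map_le).trans (natDegree_Dz n)
  · have hc : (red p (Dz n)).coeff n = (((n.choose n * (n + n).choose n : ℕ) : ℤ) : ZMod p) := by
      show (Polynomial.map (Int.castRingHom (ZMod p)) (Dz n)).coeff n = _
      rw [coeff_map, coeff_Dz]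
      rfl
    rw [hc, Nat.choose_self, one_mul]
    have hp : p.Prime := Fact.out
    intro h0
    have h1 : (((n + n).choose n : ℕ) : ZMod p) = 0 := by
      rw [← h0]
      push_cast
      rfl
    rw [ZMod.natCast_eq_zero_iff] at h1
    have h2 : p ∣ (n + n).factorial := by
      have h3 := Nat.choose_mul_factorial_mul_factorial (Nat.le_add_left n n)
      rw [← h3]
      exact (h1.mul_right _).mul_right _
    rw [hp.dvd_factorial] at h2
    omega

theorem K2 (hK1 : K1_stmt) (hRP : RP_stmt) (hPHD : PHD_stmt) (hPHV : PHV_stmt) : K2_stmt := by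
  intro p _ h5
  have hp : p.Prime := Fact.out
  obtain ⟨-, -, -, -, -, -, -, -, -, -, hz, -, -, hhalf⟩ := hPHV p h5
  have hn1 : 1 ≤ nn p := by unfold nn; omega
  have hn2 : 2 * nn p ≤ p - 1 := by unfold nn; omega
  have hn3 : nn p < p := by omega
  obtain ⟨hRs, hRd⟩ := hRP p h5 (nn p) hn3
  have hphd : (ph p (X : (ZMod p)[X]) 1).natDegree ≤ p - 1 := by
    have := (hPHD p h5).2.2.1 1
    rwa [Int.cast_one] at this
  obtain ⟨hDd, hDc⟩ := K2_aux1 p (nn p) (by omega)
  have hev : ∀ a : ZMod p, (Kp p).eval a =
      (red p (Dz (nn p))).eval a * ph p a 1 - a ^ p * (Rn p (nn p)).eval a := by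
    intro a
    have h1 : (ph p (X : (ZMod p)[X]) 1).eval a = ph p a 1 := by
      have h2 := map_ph (p := p) (evalRingHom a) (X : (ZMod p)[X]) 1
      simpa using h2
    unfold Kp
    rw [eval_sub, eval_mul, eval_mul, eval_pow, eval_X, h1]
  refine ⟨?_, ?_, ?_⟩
  · rw [hev, (hz 1).1, zero_pow hp.ne_zero]
    ring
  · by_contra hlt
    push Not at hlt
    set m := (Kp p).natDegree with hm
    have hKd : m ≤ nn p + (p - 1) := by
      rw [hm]
      unfold Kp
      refine (natDegree_sub_le _ _).trans (max_le ?_ ?_)
      · exact natDegree_mul_le.trans (Nat.add_le_add hDd hphd)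
      · refine natDegree_mul_le.trans ?_
        rw [natDegree_X_pow]
        omega
    have hKne : (Kp p).coeff m ≠ 0 := by
      rw [hm]
      intro h0
      have h1 : Kp p = 0 := leadingCoeff_eq_zero.mp h0
      rw [hm, h1, natDegree_zero] at hlt
      omega
    obtain ⟨k, hk⟩ : ∃ k, m = k + 1 := ⟨m - 1, by omega⟩
    obtain ⟨j, hj⟩ : ∃ j, nn p = j + 1 := ⟨nn p - 1, by omega⟩
    have hd1 : (derivative (Kp p)).natDegree ≤ k := by
      have := natDegree_derivative_le (Kp p)
      omega
    have hd2 : (derivative (red p (Dz (nn p)))).natDegree ≤ j := by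
      have := natDegree_derivative_le (red p (Dz (nn p)))
      omega
    have hc1 : (derivative (Kp p) * red p (Dz (nn p))).coeff (k + nn p) =
        (Kp p).coeff m * m * (red p (Dz (nn p))).coeff (nn p) := by
      rw [coeff_mul_add_eq_of_natDegree_le hd1 hDd, coeff_derivative, ← hk]
      have : (m : ZMod p) = (k : ZMod p) + 1 := by
        rw [hk]; push_cast; ring
      rw [this]
    have hc2 : (Kp p * derivative (red p (Dz (nn p)))).coeff (m + j) =
        (Kp p).coeff m * ((red p (Dz (nn p))).coeff (nn p) * nn p) := by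
      rw [coeff_mul_add_eq_of_natDegree_le hm.ge hd2, coeff_derivative, ← hj]
      have : ((nn p : ℕ) : ZMod p) = (j : ZMod p) + 1 := by
        rw [hj]; push_cast; ring
      rw [this]
    have hidx : m + j = k + nn p := by omega
    rw [hidx] at hc2
    set Q := derivative (Kp p) * red p (Dz (nn p)) - Kp p * derivative (red p (Dz (nn p)))
      with hQ
    have hQc : Q.coeff (k + nn p) =
        ((m : ZMod p) - nn p) * ((Kp p).coeff m * (red p (Dz (nn p))).coeff (nn p)) := by
      rw [hQ, coeff_sub, hc1, hc2]
      ring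
    have hQd : Q.natDegree ≤ k + nn p := by
      rw [hQ]
      refine (natDegree_sub_le _ _).trans (max_le ?_ ?_)
      · exact natDegree_mul_le.trans (Nat.add_le_add hd1 hDd)
      · refine natDegree_mul_le.trans ?_
        omega
    have hL : ((1 + X) * Q).coeff (k + nn p + 1) = Q.coeff (k + nn p) := by
      rw [add_mul, one_mul, coeff_add, coeff_X_mul, coeff_eq_zero_of_natDegree_lt (by omega),
        zero_add]
    have hR : ((1 + X) * Q).coeff (k + nn p + 1) = 0 := by
      rw [hK1 p h5, coeff_sub, coeff_X_pow, if_neg (by omega), sub_zero]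
      apply coeff_eq_zero_of_natDegree_lt
      have : (red p (Dz (nn p)) ^ 2).natDegree ≤ 2 * nn p :=
        natDegree_pow_le.trans (Nat.mul_le_mul_left 2 hDd)
      omega
    rw [hL, hQc] at hR
    rcases mul_eq_zero.mp hR with h | h
    · have h1 : ((m - nn p : ℕ) : ZMod p) = 0 := by
        rw [Nat.cast_sub (by omega)]
        exact h
      rw [ZMod.natCast_eq_zero_iff] at h1
      have h2 := Nat.le_of_dvd (by omega) h1
      omega
    · rcases mul_eq_zero.mp h with h | h
      · exact hKne h
      · exact hDc h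
  · intro h3
    have hodd : p % 2 = 1 := by
      rcases hp.eq_two_or_odd with h | h
      · omega
      · exact h
    have heven : Even (nn p) := by
      rw [Nat.even_iff]
      unfold nn
      omega
    have h2 : (2 : ZMod p) ≠ 0 := by
      have := cast_ne_zero_of_lt (p := p) (m := 2) (by norm_num) (by omega)
      exact_mod_cast this
    have hR0 : (Rn p (nn p)).eval (-1 / 2) = 0 := by
      have h1 := congrArg (eval (-1 / 2 : ZMod p)) hRs
      rw [eval_comp, eval_sub, eval_neg, eval_one, eval_X, eval_mul, eval_pow, eval_neg, eval_one,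
        Even.add_one heven |>.neg_one_pow] at h1
      have h4 : (-1 - -1 / 2 : ZMod p) = -1 / 2 := by
        field_simp
        ring
      rw [h4] at h1
      have h6 : 2 * (Rn p (nn p)).eval (-1 / 2 : ZMod p) = 0 := by linear_combination h1
      exact (mul_eq_zero.mp h6).resolve_left h2
    rw [hev, hR0, hhalf]
    ring

end Pool.Agent.helper60.DA
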